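import Pool.Agent.Lib.MP_28303a_al.TW.Lemmas

/-! Module PSI: a `T`-linear matrix with the class of a given invertible matrix. -/

set_option autoImplicit false
set_option linter.unusedSectionVars false
set_option linter.unusedVariables false

namespace Pool.Agent.NegK.TW.H65

universe u v w

open Matrix MonoidAlgebra

namespace PsiAux

/-- The data of a finite subtree, indexed by `Fin`. -/
theorem reindex {Γ V E : Type u} [Group Γ] [MulAction Γ V] [MulAction Γ E]
    (T : OTree Γ V E) (b : V) (hT : T.Subtrees b) (F : Finset V) :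
    ∃ (a c : ℕ) (vv : Fin a → V) (ee : Fin c → E)
      (B : Matrix (Fin c ⊕ Unit) (Fin a) ℤ) (N : Matrix (Fin a) (Fin c ⊕ Unit) ℤ),
      Function.Injective vv ∧ (∀ v ∈ F, ∃ x, vv x = v) ∧ B * N = 1 ∧ N * B = 1 ∧
      (∀ e v, B (Sum.inl e) v ≠ 0 → vv v = T.o (ee e) ∨ vv v = T.t (ee e)) ∧
      (∀ v, N v (Sum.inr ()) = 1) := by
  classical
  obtain ⟨V₀, E₀, hb, hF, hE, B, N, hBN, hNB, hB1, hB2⟩ := hT F
  let εV := V₀.equivFin
  let εE := E₀.equivFin
  let εs : (E₀ ⊕ Unit) ≃ (Fin E₀.card ⊕ Unit) := Equiv.sumCongr εE (Equiv.refl Unit)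
  have hlast : ∀ v, N v (Sum.inr ()) = 1 := by
    have h1 : B *ᵥ (fun _ => (1 : ℤ)) = Pi.single (Sum.inr ()) 1 := by
      funext x
      rcases x with e | x
      · rw [Pi.single_eq_of_ne (by simp)]
        simp only [Matrix.mulVec, dotProduct, mul_one, hB1]
        rw [Finset.sum_sub_distrib]
        have key : ∀ u : V, u ∈ V₀ → ∑ v : V₀, (if (v : V) = u then (1 : ℤ) else 0) = 1 := by
          intro u hu
          rw [Finset.sum_eq_single ⟨u, hu⟩]
          · simp
          · intro v _ hv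
            rw [if_neg]
            intro h
            exact hv (Subtype.ext h)
          · intro h
            exact absurd (Finset.mem_univ _) h
        rw [key _ (hE e.1 e.2).2, key _ (hE e.1 e.2).1, sub_self]
      · rw [Pi.single_eq_same]
        simp only [Matrix.mulVec, dotProduct, mul_one, hB2]
        rw [Finset.sum_eq_single ⟨b, hb⟩]
        · simp
        · intro v _ hv
          rw [if_neg]
          intro h
          exact hv (Subtype.ext h)
        · intro h
          exact absurd (Finset.mem_univ _) h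
    intro v
    have h2 : N *ᵥ (B *ᵥ (fun _ => (1 : ℤ))) = fun _ => 1 := by
      rw [Matrix.mulVec_mulVec, hNB, Matrix.one_mulVec]
    rw [h1, Matrix.mulVec_single_one] at h2
    exact congrFun h2 v
  refine ⟨V₀.card, E₀.card, fun x => (εV.symm x).1, fun x => (εE.symm x).1,
    B.submatrix εs.symm εV.symm, N.submatrix εV.symm εs.symm, ?_, ?_, ?_, ?_, ?_, ?_⟩
  · intro x y h
    exact εV.symm.injective (Subtype.ext h)
  · intro v hv
    exact ⟨εV ⟨v, hF hv⟩, by simp⟩
  · rw [Matrix.submatrix_mul_equiv, hBN, Matrix.submatrix_one_equiv]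
  · rw [Matrix.submatrix_mul_equiv, hNB, Matrix.submatrix_one_equiv]
  · intro e v h
    change B (Sum.inl (εE.symm e)) (εV.symm v) ≠ 0 at h
    rw [hB1] at h
    by_contra hc
    push Not at hc
    rw [if_neg hc.1, if_neg hc.2] at h
    simp at h
  · intro v
    exact hlast _

theorem coeff_int_ne {k Γ : Type u} [Ring k] [Group Γ] (z : ℤ) (h : Γ)
    (hh : (Int.castRingHom (MonoidAlgebra k Γ) z).coeff h ≠ 0) : h = 1 := by
  have h1 : Int.castRingHom (MonoidAlgebra k Γ) z = single 1 (z : k) := by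
    rw [eq_intCast]
    exact (map_intCast (MonoidAlgebra.singleOneRingHom : k →+* MonoidAlgebra k Γ) z).symm
  rw [h1] at hh
  exact coeff_single_ne hh

end PsiAux

open PsiAux in
theorem psi : PsiStatement.{u} := by
  intro k Γ V E _ _ _ _ T b hT n β hβ
  classical
  obtain ⟨a, c, vv, ee, B, N, hinj, hF, hBN, hNB, hB, hN⟩ := reindex T b hT
    (Finset.univ.biUnion fun i : Fin n => Finset.univ.biUnion fun j : Fin n =>
      (β i j).coeff.support.image fun h => h⁻¹ • b)
  have hF' : ∀ i j h, (β i j).coeff h ≠ 0 → ∃ x, h • vv x = b := by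
    intro i j h hh
    obtain ⟨x, hx⟩ := hF (h⁻¹ • b) (by
      rw [Finset.mem_biUnion]
      refine ⟨i, Finset.mem_univ _, ?_⟩
      rw [Finset.mem_biUnion]
      exact ⟨j, Finset.mem_univ _, Finset.mem_image_of_mem _ (Finsupp.mem_support_iff.2 hh)⟩)
    exact ⟨x, by rw [hx, smul_inv_smul]⟩
  obtain ⟨βi, hβ1, hβ2⟩ := exists_inv hβ
  let σ : (Fin c × Fin n) ⊕ Fin n ≃ (Fin c ⊕ Unit) × Fin n :=
    (Equiv.sumCongr (Equiv.refl _) (Equiv.uniqueProd (Fin n) Unit).symm).trans
      (Equiv.sumProdDistrib _ _ _).symm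
  have hσ1 : ∀ e i, σ (Sum.inl (e, i)) = (Sum.inl e, i) := fun _ _ => rfl
  have hσ2 : ∀ i, σ (Sum.inr i) = (Sum.inr (), i) := fun _ => rfl
  let C : Matrix (Fin a × Fin n) ((Fin c × Fin n) ⊕ Fin n) ℤ :=
    (kroneckerMap (· * ·) N (1 : Matrix (Fin n) (Fin n) ℤ)).submatrix id σ
  let C' : Matrix ((Fin c × Fin n) ⊕ Fin n) (Fin a × Fin n) ℤ :=
    (kroneckerMap (· * ·) B (1 : Matrix (Fin n) (Fin n) ℤ)).submatrix σ id
  have hCC' : C * C' = 1 := by
    rw [Matrix.submatrix_mul_equiv, ← Matrix.mul_kronecker_mul, hNB, one_mul,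
      Matrix.one_kronecker_one, Matrix.submatrix_id_id]
  have hC'C : C' * C = 1 := by
    have h1 : C' * C = ((kroneckerMap (· * ·) B (1 : Matrix (Fin n) (Fin n) ℤ)) *
      (kroneckerMap (· * ·) N (1 : Matrix (Fin n) (Fin n) ℤ))).submatrix σ σ := by
      rw [Matrix.submatrix_mul _ _ σ id σ Function.bijective_id]
    rw [h1, ← Matrix.mul_kronecker_mul, hBN, one_mul, Matrix.one_kronecker_one,
      Matrix.submatrix_one_equiv]
  let φ : ℤ →+* MonoidAlgebra k Γ := Int.castRingHom (MonoidAlgebra k Γ)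
  have hCA : C.map φ * C'.map φ = 1 := by
    rw [← Matrix.map_mul, hCC', Matrix.map_one _ (map_zero _) (map_one _)]
  have hCA' : C'.map φ * C.map φ = 1 := by
    rw [← Matrix.map_mul, hC'C, Matrix.map_one _ (map_zero _) (map_one _)]
  let dE : Fin c × Fin n → E := fun x => ee x.1
  let dX : Fin a × Fin n → V := fun x => vv x.1
  let δ : Matrix (Fin c × Fin n) (Fin a × Fin n) (MonoidAlgebra k Γ) :=
    fun e x => φ (C' (Sum.inl e) x)
  let w : Matrix (Fin n) (Fin a × Fin n) (MonoidAlgebra k Γ) :=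
    fun i x => fil {h | h • vv x.1 = b} (β i x.2)
  let X : Matrix (Fin n) (Fin c × Fin n) (MonoidAlgebra k Γ) :=
    fun i e => (w * C.map φ) i (Sum.inl e)
  have hprod : fromRows δ w * C.map φ = fromBlocks 1 0 X β := by
    ext1 x y
    rcases x with x | i
    · have h1 : (fromRows δ w * C.map φ) (Sum.inl x) y =
          (C'.map φ * C.map φ) (Sum.inl x) y := rfl
      rw [h1, hCA']
      rcases y with y | j
      · rw [Matrix.fromBlocks_apply₁₁]
        by_cases hxy : x = y
        · subst hxy; rw [Matrix.one_apply_eq, Matrix.one_apply_eq]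
        · rw [Matrix.one_apply_ne hxy, Matrix.one_apply_ne (by simpa using hxy)]
      · rw [Matrix.fromBlocks_apply₁₂, Matrix.one_apply_ne (by simp)]
        rfl
    · rcases y with y | j
      · rfl
      · rw [Matrix.fromBlocks_apply₂₂]
        have h1 : (fromRows δ w * C.map φ) (Sum.inr i) (Sum.inr j) =
            ∑ x : Fin a × Fin n, w i x * φ (C x (Sum.inr j)) := rfl
        have h2 : ∀ x, C x (Sum.inr j) = if x.2 = j then 1 else 0 := by
          intro x
          change N x.1 (σ (Sum.inr j)).1 * (1 : Matrix (Fin n) (Fin n) ℤ) x.2 (σ (Sum.inr j)).2 = _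
          rw [hσ2]
          simp only
          rw [hN, one_mul, Matrix.one_apply]
        rw [h1, Fintype.sum_prod_type]
        have h3 : ∀ x : Fin a, ∑ y : Fin n, w i (x, y) * φ (C (x, y) (Sum.inr j)) =
            fil {h | h • vv x = b} (β i j) := by
          intro x
          rw [Finset.sum_eq_single j]
          · rw [h2, if_pos rfl, map_one, mul_one]
          · intro y _ hy
            rw [h2, if_neg hy, map_zero, mul_zero]
          · intro h
            exact absurd (Finset.mem_univ _) h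
        rw [Finset.sum_congr rfl fun x _ => h3 x]
        ext h
        rw [MonoidAlgebra.coeff_sum, Finsupp.finsetSum_apply]
        by_cases hh : (β i j).coeff h = 0
        · rw [hh]
          refine Finset.sum_eq_zero fun x _ => ?_
          by_contra hc
          exact (fil_ne hc).2 hh
        · obtain ⟨x, hx⟩ := hF' i j h hh
          rw [Finset.sum_eq_single x]
          · rw [fil_pos (show h ∈ {h | h • vv x = b} from hx)]
          · intro y _ hy
            refine fil_neg (fun hm => hy (hinj ?_)) _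
            have hm' : h • vv y = b := hm
            exact smul_left_cancel h (hm'.trans hx.symm)
          · intro h
            exact absurd (Finset.mem_univ _) h
  let L : Matrix ((Fin c × Fin n) ⊕ Fin n) ((Fin c × Fin n) ⊕ Fin n) (MonoidAlgebra k Γ) :=
    fromBlocks 1 0 X β
  let L' : Matrix ((Fin c × Fin n) ⊕ Fin n) ((Fin c × Fin n) ⊕ Fin n) (MonoidAlgebra k Γ) :=
    fromBlocks 1 0 (-(βi * X)) βi
  have hL1 : L * L' = 1 := by
    change fromBlocks 1 0 X β * fromBlocks 1 0 (-(βi * X)) βi = 1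
    rw [Matrix.fromBlocks_multiply, ← Matrix.fromBlocks_one]
    simp [hβ1, ← Matrix.mul_assoc]
  have hL2 : L' * L = 1 := by
    change fromBlocks 1 0 (-(βi * X)) βi * fromBlocks 1 0 X β = 1
    rw [Matrix.fromBlocks_multiply, ← Matrix.fromBlocks_one]
    simp [hβ2]
  have hΦL : fromRows δ w * C.map φ = L := hprod
  let Ψ : Matrix (Fin a × Fin n) ((Fin c × Fin n) ⊕ Fin n) (MonoidAlgebra k Γ) := C.map φ * L'
  have h1 : fromRows δ w * Ψ = 1 := by
    change fromRows δ w * (C.map φ * L') = 1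
    rw [← Matrix.mul_assoc, hΦL, hL1]
  have h2 : Ψ * fromRows δ w = 1 := by
    calc Ψ * fromRows δ w = C.map φ * (L' * (fromRows δ w * C.map φ)) * C'.map φ := by
          rw [← Matrix.mul_assoc L', ← Matrix.mul_assoc (C.map φ), Matrix.mul_assoc _ (C.map φ),
            hCA, Matrix.mul_one]
          change C.map φ * L' * fromRows δ w = C.map φ * (L' * fromRows δ w)
          rw [Matrix.mul_assoc]
      _ = 1 := by rw [hΦL, hL2, Matrix.mul_one, hCA]
  have hΨ : fromCols Ψ.toCols₁ Ψ.toCols₂ = Ψ := Matrix.fromCols_toCols _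
  rw [← hΨ, Matrix.fromRows_mul_fromCols, ← Matrix.fromBlocks_one, Matrix.fromBlocks_inj] at h1
  rw [← hΨ, Matrix.fromCols_mul_fromRows] at h2
  refine ⟨Fin c × Fin n, Fin a × Fin n, inferInstance, inferInstance, inferInstance, inferInstance,
    dE, dX, δ, w, Ψ.toCols₁, Ψ.toCols₂, C, C', ⟨?_, ?_, h1.1, h1.2.1, h1.2.2.1, h1.2.2.2, h2⟩,
    hCC', hC'C, ?_⟩
  · rintro ⟨e, i⟩ ⟨x, j⟩ h hh
    change (φ (C' (Sum.inl (e, i)) (x, j))).coeff h ≠ 0 at hh
    have h3 : C' (Sum.inl (e, i)) (x, j) = B (Sum.inl e) x * (1 : Matrix (Fin n) (Fin n) ℤ) i j :=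
      rfl
    have h4 : B (Sum.inl e) x ≠ 0 := by
      intro h0
      rw [h3, h0, zero_mul, map_zero] at hh
      exact hh rfl
    have h6 : h = 1 := coeff_int_ne _ h hh
    subst h6
    rw [one_smul]
    exact hB e x h4
  · intro i x h hh
    exact (show h • vv x.1 = b from (fil_ne hh).1).symm
  · intro M _ χ
    change χ.val (fromRows δ w * C.map φ) = _
    rw [hprod]
    have h3 : (fromBlocks 1 0 X β : Matrix ((Fin c × Fin n) ⊕ Fin n) ((Fin c × Fin n) ⊕ Fin n)
        (MonoidAlgebra k Γ)) = fromBlocks 1 0 0 β * fromBlocks 1 0 (βi * X) 1 := by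
      rw [Matrix.fromBlocks_multiply]
      simp [← Matrix.mul_assoc, hβ1]
    rw [h3, χ.mul _ _ (isUnit_blocks isUnit_one hβ) (isUnit_lower _), χ.lower,
      χ.val_one_blocks hβ, add_zero]

end Pool.Agent.NegK.TW.H65
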