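import Pool.Agent.Lib.MP_28303a_al.TW.Lemmas

/-! Module REF: refinement of the degrees by the subgroups `K i`. -/

set_option autoImplicit false
set_option linter.unusedSectionVars false
set_option linter.unusedVariables false

namespace Pool.Agent.NegK.TW.H65

universe u v w

open Matrix MonoidAlgebra

namespace RefAux

section

variable {Γ 𝔻 : Type u} [Group Γ] [MulAction Γ 𝔻] {J : Type} (K : J → Subgroup Γ)

/-- The refined degrees. -/
abbrev RD : Type u := Σ i : J, Γ ⧸ K i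

/-- The projection to the coarse degrees. -/
def pr {ε : J → 𝔻} (hK : ∀ i, K i ≤ MulAction.stabilizer Γ (ε i)) (c : RD K) : 𝔻 :=
  Quotient.liftOn' c.2 (fun x => x • ε c.1) (by
    intro x y hxy
    have h1 : x⁻¹ * y ∈ K c.1 := QuotientGroup.leftRel_apply.1 hxy
    have h2 := MulAction.mem_stabilizer_iff.1 (hK _ h1)
    show x • ε c.1 = y • ε c.1
    conv_lhs => rw [← h2, ← mul_smul, mul_inv_cancel_left])

theorem pr_mk {ε : J → 𝔻} (hK : ∀ i, K i ≤ MulAction.stabilizer Γ (ε i)) (i : J) (x : Γ) :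
    pr K hK ⟨i, (x : Γ ⧸ K i)⟩ = x • ε i := rfl

theorem smul_mk (g : Γ) (i : J) (x : Γ) :
    g • (⟨i, (x : Γ ⧸ K i)⟩ : RD K) = ⟨i, ((g * x : Γ) : Γ ⧸ K i)⟩ := rfl

theorem pr_smul {ε : J → 𝔻} (hK : ∀ i, K i ≤ MulAction.stabilizer Γ (ε i)) (g : Γ) (c : RD K) :
    pr K hK (g • c) = g • pr K hK c := by
  obtain ⟨i, q⟩ := c
  obtain ⟨x, rfl⟩ := QuotientGroup.mk_surjective q
  rw [smul_mk, pr_mk, pr_mk, mul_smul]

theorem stab_mk (i : J) (x : Γ) : MulAction.stabilizer Γ (⟨i, (x : Γ ⧸ K i)⟩ : RD K) =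
    (K i).map (MulAut.conj x).toMonoidHom := by
  ext g
  rw [MulAction.mem_stabilizer_iff, smul_mk, Sigma.mk.injEq, heq_eq_eq, Subgroup.mem_map]
  constructor
  · rintro ⟨-, h⟩
    have h1 := QuotientGroup.eq.1 h.symm
    refine ⟨x⁻¹ * (g * x), h1, ?_⟩
    show x * (x⁻¹ * (g * x)) * x⁻¹ = g
    group
  · rintro ⟨y, hy, rfl⟩
    refine ⟨rfl, (QuotientGroup.eq.2 ?_).symm⟩
    show x⁻¹ * (x * y * x⁻¹ * x) ∈ K i
    have : x⁻¹ * (x * y * x⁻¹ * x) = y := by group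
    rwa [this]

theorem mk_eq {i i' : J} (h : i = i') (x x' : Γ) (hx : x⁻¹ * x' ∈ K i) :
    (⟨i, (x : Γ ⧸ K i)⟩ : RD K) = ⟨i', (x' : Γ ⧸ K i')⟩ := by
  subst h
  rw [QuotientGroup.eq.2 hx]

end

end RefAux

open RefAux in
theorem ref (h1 : ChnStatement.{u}) (h2 : WdfStatement.{u}) (h3 : ThboStatement.{u}) :
    RefStatement.{u} := by
  intro S hS k Γ 𝔻 _ _ _ P hP hA J _ _ dg ν hν hu
  classical
  obtain ⟨ρ, g, hg, hρ, hρρ⟩ := exists_od (Γ := Γ) dg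
  obtain ⟨d, hd⟩ := h1 (LaurentPolynomial k) Γ 𝔻 P hP J dg ν hν hu
  let gen : J → Set Γ := fun i => {x | ∃ j n, n ≤ d ∧ ∃ p ∈ Wd ν j n, ∃ q ∈ Wd ν j n,
    p.1 • dg p.2 = q.1 • dg q.2 ∧ ρ p.2 = i ∧ x = (p.1 * g p.2)⁻¹ * (q.1 * g q.2)}
  have hfin : ∀ i, (gen i).Finite := by
    intro i
    have h4 : (⋃ j : J, ⋃ n ∈ Set.Iic d, ((fun y : (Γ × J) × (Γ × J) =>
        (y.1.1 * g y.1.2)⁻¹ * (y.2.1 * g y.2.2)) '' (Wd ν j n ×ˢ Wd ν j n))).Finite := by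
      refine Set.finite_iUnion fun j => Set.Finite.biUnion (Set.finite_Iic d) fun n _ => ?_
      exact ((h2 _ _ J ν j n).prod (h2 _ _ J ν j n)).image _
    refine h4.subset ?_
    rintro x ⟨j, n, hn, p, hp, q, hq, -, -, rfl⟩
    simp only [Set.mem_iUnion]
    exact ⟨j, n, hn, ⟨p, q⟩, ⟨hp, hq⟩, rfl⟩
  have hρ' : ∀ (p q : Γ × J), p.1 • dg p.2 = q.1 • dg q.2 → ρ p.2 = ρ q.2 := by
    intro p q h
    refine hρ _ _ (q.1⁻¹ * p.1) ?_
    rw [mul_smul, h, inv_smul_smul]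
  obtain ⟨K', m, M, rk, hK', hrk⟩ := hA J dg (fun i => Subgroup.closure (gen i))
    (fun i => (Subgroup.fg_iff _).2 ⟨gen i, rfl, hfin i⟩) (by
      intro i
      rw [Subgroup.closure_le]
      rintro x ⟨j, n, hn, p, hp, q, hq, h, rfl, rfl⟩
      rw [SetLike.mem_coe, MulAction.mem_stabilizer_iff, mul_smul, mul_smul]
      have h4 := hg q.2
      rw [← hρ' p q h] at h4
      rw [h4, ← h, inv_smul_eq_iff, mul_smul, hg])
  have hK : ∀ i, K' i ≤ MulAction.stabilizer Γ (dg i) := fun i => (hK' i).2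
  let dg' : J → RD K' := fun l => ⟨ρ l, (g l : Γ ⧸ K' (ρ l))⟩
  have hdg' : ∀ j, pr K' hK (dg' j) = dg j := hg
  let R : GRel Γ (RD K') :=
    { R := fun c c' => P.R (pr K' hK c) (pr K' hK c')
      inv := by
        intro x c c' h
        rw [pr_smul, pr_smul]
        exact P.inv x _ _ h }
  refine h3 S hS k Γ _ (PathSub P dg K' m) M rk hrk m (RD K') R ?_ ?_ J dg' ν d ?_ ?_
  · intro l c hl hc
    have hex : ∀ j, ∃ x : Γ, c j = ⟨(c j).1, (x : Γ ⧸ K' (c j).1)⟩ := by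
      intro j
      obtain ⟨x, hx⟩ := QuotientGroup.mk_surjective (c j).2
      exact ⟨x, by rw [hx]⟩
    choose x hx using hex
    refine ⟨l, hl, fun j => pr K' hK (c j), fun j => (c j).1, x, hc, ?_, ?_⟩
    · intro j _
      have h4 := congrArg (pr K' hK) (hx j)
      rw [pr_mk] at h4
      exact h4.symm
    · unfold stabChain
      refine iInf_congr fun j => ?_
      conv_lhs => rw [hx j]
      exact stab_mk K' _ _
  · intro c y hy
    refine ⟨pr K' hK c, ?_⟩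
    rw [← pr_smul]
    exact Relation.TransGen.lift (pr K' hK) (fun a b h => h) _ _ hy
  · intro i j h hh
    show P.R (pr K' hK (dg' i)) (pr K' hK (h • dg' j))
    rw [pr_smul, hdg', hdg']
    exact hν i j h hh
  · refine hd (RD K') (pr K' hK) dg' (pr_smul K' hK) hdg' ?_
    intro j n hn p hp q hq h
    show p.1 • (⟨ρ p.2, (g p.2 : Γ ⧸ K' (ρ p.2))⟩ : RD K') =
      q.1 • (⟨ρ q.2, (g q.2 : Γ ⧸ K' (ρ q.2))⟩ : RD K')
    rw [smul_mk, smul_mk]
    refine mk_eq K' (hρ' p q h) _ _ ((hK' _).1 (Subgroup.subset_closure ?_))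
    exact ⟨j, n, hn, p, hp, q, hq, h, rfl, rfl⟩

end Pool.Agent.NegK.TW.H65
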